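import Mathlib

/-!
# Minimal `ℓ₁`-norm of sums of `m_n` rows of the Sylvester matrix

For every `n` and every permutation `σ` of the rows, the sum of the rows `σ(1), …, σ(m_n)` of the
Sylvester matrix of order `2^n` has `ℓ₁`-norm at least `ϱ_n`.
-/

set_option autoImplicit false

namespace Pool.Agent.Results.MP_3a5363_co.SylvesterRows

open Finset

/-! ### Definitions used in the statement -/

/-- The Sylvester matrix of order `2^n`, with 0-based rows and columns:
`S⁽⁰⁾ = [1]` and `S⁽ⁿ⁺¹⁾ = [[S⁽ⁿ⁾, S⁽ⁿ⁾], [S⁽ⁿ⁾, -S⁽ⁿ⁾]]`. -/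
def syl : (n : ℕ) → Matrix (Fin (2 ^ n)) (Fin (2 ^ n)) ℤ
  | 0 => fun _ _ => 1
  | n + 1 => fun k i =>
      (if 2 ^ n ≤ k.val ∧ 2 ^ n ≤ i.val then -1 else 1) *
        syl n ⟨k.val % 2 ^ n, Nat.mod_lt _ (Nat.two_pow_pos n)⟩
          ⟨i.val % 2 ^ n, Nat.mod_lt _ (Nat.two_pow_pos n)⟩

/-- The `ℓ₁`-norm of a real vector. -/
noncomputable def l1 {N : ℕ} (x : Fin N → ℝ) : ℝ := ∑ i, |x i|

/-- `m_n = (2^(n+1) + (-1)^n) / 3`. -/
def m (n : ℕ) : ℕ := (((2 : ℤ) ^ (n + 1) + (-1) ^ n) / 3).toNat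

/-- `ϱ_n = (3n+7)2^n/9 + 2(-1)^n/9`. -/
noncomputable def rho (n : ℕ) : ℝ := (3 * n + 7) * 2 ^ n / 9 + 2 * (-1) ^ n / 9

/-! ### The recursive bound -/

/-- the lower bound for the sum over `m` rows -/
def w : ℕ → ℤ → ℤ
  | 0, t => t
  | n + 1, t => w n (t / 2) + w n ((t + 1) / 2) + 2 ^ n * (t % 2)

theorem w_even (n : ℕ) (k : ℤ) : w (n + 1) (2 * k) = 2 * w n k := by
  have h1 : (2 * k) / 2 = k := by omega
  have h2 : (2 * k + 1) / 2 = k := by omega
  have h3 : (2 * k) % 2 = 0 := by omega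
  simp only [w, h1, h2, h3]
  ring

theorem w_odd (n : ℕ) (k : ℤ) : w (n + 1) (2 * k + 1) = w n k + w n (k + 1) + 2 ^ n := by
  have h1 : (2 * k + 1) / 2 = k := by omega
  have h2 : (2 * k + 1 + 1) / 2 = k + 1 := by omega
  have h3 : (2 * k + 1) % 2 = 1 := by omega
  simp only [w, h1, h2, h3]
  ring

theorem DF (n : ℕ) : (∀ k e : ℤ, 0 ≤ e → 2 * w n k ≤ w n (k + e) + w n (k - e) + 2 ^ n * (2 * e)) ∧
    (∀ k e : ℤ, 0 ≤ e → w n k + w n (k + 1) ≤ w n (k - e) + w n (k + 1 + e) + 2 ^ n * (2 * e)) := by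
  induction n with
  | zero =>
    refine ⟨fun k e he => ?_, fun k e he => ?_⟩
    · simp only [w]; norm_num; linarith
    · simp only [w]; norm_num; linarith
  | succ n ih =>
    obtain ⟨D, F⟩ := ih
    have hp : (0 : ℤ) < 2 ^ n := by positivity
    refine ⟨fun k e he => ?_, fun k e he => ?_⟩
    · obtain ⟨l, rfl | rfl⟩ := Int.even_or_odd' k <;> obtain ⟨g, rfl | rfl⟩ := Int.even_or_odd' e
      · have hg : 0 ≤ g := by omega
        have e1 : 2 * l + 2 * g = 2 * (l + g) := by ring
        have e2 : 2 * l - 2 * g = 2 * (l - g) := by ring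
        rw [e1, e2, w_even, w_even, w_even]
        have := D l g hg
        have h2 : 0 ≤ 2 ^ n * g := by positivity
        rw [pow_succ]
        nlinarith
      · have hg : 0 ≤ g := by omega
        have e1 : 2 * l + (2 * g + 1) = 2 * (l + g) + 1 := by ring
        have e2 : 2 * l - (2 * g + 1) = 2 * (l - g - 1) + 1 := by ring
        rw [e1, e2, w_even, w_odd, w_odd]
        have a1 := D l g hg
        have a2 := D l (g + 1) (by omega)
        have h2 : 0 ≤ 2 ^ n * g := by positivity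
        rw [show l - (g + 1) = l - g - 1 by ring, show l + (g + 1) = l + g + 1 by ring] at a2
        rw [show l - g - 1 + 1 = l - g by ring]
        rw [pow_succ]
        nlinarith
      · have hg : 0 ≤ g := by omega
        have e1 : 2 * l + 1 + 2 * g = 2 * (l + g) + 1 := by ring
        have e2 : 2 * l + 1 - 2 * g = 2 * (l - g) + 1 := by ring
        rw [e1, e2, w_odd, w_odd, w_odd]
        have a1 := D l g hg
        have a2 := D (l + 1) g hg
        have h2 : 0 ≤ 2 ^ n * g := by positivity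
        rw [show l + 1 - g = l - g + 1 by ring, show l + 1 + g = l + g + 1 by ring] at a2
        rw [pow_succ]
        nlinarith
      · have hg : 0 ≤ g := by omega
        have e1 : 2 * l + 1 + (2 * g + 1) = 2 * (l + g + 1) := by ring
        have e2 : 2 * l + 1 - (2 * g + 1) = 2 * (l - g) := by ring
        rw [e1, e2, w_odd, w_even, w_even]
        have a1 := F l g hg
        have h2 : 0 ≤ 2 ^ n * g := by positivity
        rw [show l + 1 + g = l + g + 1 by ring] at a1
        rw [pow_succ]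
        nlinarith
    · obtain ⟨l, rfl | rfl⟩ := Int.even_or_odd' k <;> obtain ⟨g, rfl | rfl⟩ := Int.even_or_odd' e
      · have hg : 0 ≤ g := by omega
        have e1 : 2 * l + 1 + 2 * g = 2 * (l + g) + 1 := by ring
        have e2 : 2 * l - 2 * g = 2 * (l - g) := by ring
        rw [e1, e2, w_even, w_odd, w_odd, w_even]
        have a1 := F l g hg
        have a2 := D l g hg
        have h2 : 0 ≤ 2 ^ n * g := by positivity
        rw [show l + 1 + g = l + g + 1 by ring] at a1
        rw [pow_succ]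
        nlinarith
      · have hg : 0 ≤ g := by omega
        have e1 : 2 * l + 1 + (2 * g + 1) = 2 * (l + g + 1) := by ring
        have e2 : 2 * l - (2 * g + 1) = 2 * (l - g - 1) + 1 := by ring
        rw [e1, e2, w_even, w_odd, w_odd, w_even]
        have a1 := F l g hg
        have a2 := D l (g + 1) (by omega)
        have h2 : 0 ≤ 2 ^ n * g := by positivity
        rw [show l + 1 + g = l + g + 1 by ring] at a1
        rw [show l - (g + 1) = l - g - 1 by ring, show l + (g + 1) = l + g + 1 by ring] at a2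
        rw [show l - g - 1 + 1 = l - g by ring]
        rw [pow_succ]
        nlinarith
      · have hg : 0 ≤ g := by omega
        have e0 : 2 * l + 1 + 1 = 2 * (l + 1) := by ring
        have e1 : 2 * l + 1 + 1 + 2 * g = 2 * (l + g + 1) := by ring
        have e2 : 2 * l + 1 - 2 * g = 2 * (l - g) + 1 := by ring
        rw [e1, e2, e0, w_even, w_odd, w_odd, w_even]
        have a1 := F l g hg
        have a2 := D (l + 1) g hg
        have h2 : 0 ≤ 2 ^ n * g := by positivity
        rw [show l + 1 + g = l + g + 1 by ring] at a1 a2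
        rw [show l + 1 - g = l - g + 1 by ring] at a2
        rw [pow_succ]
        nlinarith
      · have hg : 0 ≤ g := by omega
        have e0 : 2 * l + 1 + 1 = 2 * (l + 1) := by ring
        have e1 : 2 * l + 1 + 1 + (2 * g + 1) = 2 * (l + g + 1) + 1 := by ring
        have e2 : 2 * l + 1 - (2 * g + 1) = 2 * (l - g) := by ring
        rw [e1, e2, e0, w_even, w_odd, w_odd, w_even]
        have a1 := F l g hg
        have a2 := D (l + 1) (g + 1) (by omega)
        have h2 : 0 ≤ 2 ^ n * g := by positivity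
        rw [show l + 1 + g = l + g + 1 by ring] at a1
        rw [show l + 1 - (g + 1) = l - g by ring, show l + 1 + (g + 1) = l + g + 1 + 1 by ring] at a2
        rw [pow_succ]
        nlinarith

/-- the inequality used in the induction step -/
theorem w_step (n : ℕ) (a b : ℤ) : w (n + 1) (a + b) ≤ w n a + w n b + 2 ^ n * |a - b| := by
  wlog h : b ≤ a generalizing a b
  · have := this b a (by omega)
    rw [add_comm a b, abs_sub_comm]
    linarith
  rw [abs_of_nonneg (by omega)]
  obtain ⟨D, F⟩ := DF n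
  obtain ⟨k, hk | hk⟩ := Int.even_or_odd' (a + b)
  · have h1 := D k (a - k) (by omega)
    rw [hk, w_even]
    rw [show k + (a - k) = a by ring, show k - (a - k) = b by omega] at h1
    have h2 : 2 * (a - k) = a - b := by omega
    rw [h2] at h1
    exact h1
  · have h1 := F k (k - b) (by omega)
    rw [hk, w_odd]
    rw [show k - (k - b) = b by ring, show k + 1 + (k - b) = a by omega] at h1
    have h2 : a - b = 2 * (k - b) + 1 := by omega
    rw [h2]
    linarith

/-! ### The main induction, for families of sign functions closed under multiplication -/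

section main

variable {X : Type*}

/-- `fh e A χ = ∑_{x ∈ A} e χ x` -/
def fh (e : ℕ → X → ℤ) (A : Finset X) (χ : ℕ) : ℤ := ∑ x ∈ A, e χ x

theorem main (e : ℕ → X → ℤ) (Γ : Finset ℕ)
    (hsq : ∀ χ x, e χ x = 1 ∨ e χ x = -1)
    (hcl : ∀ a ∈ Γ, ∀ b ∈ Γ, a ^^^ b ∈ Γ)
    (hmul : ∀ a ∈ Γ, ∀ b ∈ Γ, ∀ x, e (a ^^^ b) x = e a x * e b x) (n : ℕ) :
    ∀ Δ : Finset ℕ, Δ ⊆ Γ → Δ.Nonempty → (∀ a ∈ Δ, ∀ b ∈ Δ, a ^^^ b ∈ Δ) →
      Γ.card = 2 ^ n * Δ.card →
      ∀ A : Finset X, (∀ δ ∈ Δ, ∃ c, ∀ x ∈ A, e δ x = c) →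
      (Δ.card : ℤ) * w n A.card ≤ ∑ χ ∈ Γ, |fh e A χ| := by
  induction n with
  | zero =>
    intro Δ hΔ _ _ hcard A hA
    have hEq : Δ = Γ := Finset.eq_of_subset_of_card_le hΔ (by omega)
    subst hEq
    have : ∀ χ ∈ Δ, |fh e A χ| = A.card := by
      intro χ hχ
      obtain ⟨c, hc⟩ := hA χ hχ
      have h1 : fh e A χ = A.card * c := by
        unfold fh
        rw [Finset.sum_congr rfl hc, Finset.sum_const, nsmul_eq_mul]
      rcases A.eq_empty_or_nonempty with h | ⟨x, hx⟩
      · subst h; simp [fh]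
      · have h2 : |c| = 1 := by
          rcases hsq χ x with h | h
          · rw [← hc x hx, h]; norm_num
          · rw [← hc x hx, h]; norm_num
        rw [h1, abs_mul, h2]
        simp
    rw [Finset.sum_congr rfl this, Finset.sum_const, nsmul_eq_mul]
    simp [w]
  | succ n ih =>
    intro Δ hΔ hne hΔcl hcard A hA
    have hΔpos : 0 < Δ.card := Finset.card_pos.mpr hne
    have hlt : Δ.card < Γ.card := by
      rw [hcard, pow_succ]
      have := Nat.two_pow_pos n
      nlinarith
    have hne' : (Γ \ Δ).Nonempty := by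
      rw [Finset.sdiff_nonempty]
      intro h
      have := Finset.card_le_card h
      omega
    obtain ⟨χ₀, hχ₀, hmin⟩ := Finset.exists_min_image (Γ \ Δ) (fun χ => |fh e A χ|) hne'
    rw [Finset.mem_sdiff] at hχ₀
    set d := |fh e A χ₀| with hd
    -- every coefficient is at least d
    have hle : ∀ χ, |fh e A χ| ≤ A.card := by
      intro χ
      unfold fh
      refine (Finset.abs_sum_le_sum_abs _ _).trans ?_
      have : ∀ x ∈ A, |e χ x| = 1 := by
        intro x _
        rcases hsq χ x with h | h <;> rw [h] <;> norm_num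
      rw [Finset.sum_congr rfl this]
      simp
    have hge : ∀ χ ∈ Γ, d ≤ |fh e A χ| := by
      intro χ hχ
      by_cases hχΔ : χ ∈ Δ
      · obtain ⟨c, hc⟩ := hA χ hχΔ
        have h1 : fh e A χ = A.card * c := by
          unfold fh
          rw [Finset.sum_congr rfl hc, Finset.sum_const, nsmul_eq_mul]
        rcases A.eq_empty_or_nonempty with h | ⟨x, hx⟩
        · subst h; simp [hd, fh]
        · have h2 : |c| = 1 := by
            rcases hsq χ x with h | h
            · rw [← hc x hx, h]; norm_num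
            · rw [← hc x hx, h]; norm_num
          rw [h1, abs_mul, h2]
          simpa using hle χ₀
      · exact hmin χ (Finset.mem_sdiff.mpr ⟨hχ, hχΔ⟩)
    -- the two halves
    set A0 := A.filter (fun x => e χ₀ x = 1) with hA0
    set A1 := A.filter (fun x => ¬ e χ₀ x = 1) with hA1
    have hA1' : ∀ x ∈ A1, e χ₀ x = -1 := by
      intro x hx
      rw [hA1, Finset.mem_filter] at hx
      rcases hsq χ₀ x with h | h
      · exact absurd h hx.2
      · exact h
    have hA0' : ∀ x ∈ A0, e χ₀ x = 1 := by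
      intro x hx
      rw [hA0, Finset.mem_filter] at hx
      exact hx.2
    have hsum : ∀ χ, fh e A χ = fh e A0 χ + fh e A1 χ := by
      intro χ
      unfold fh
      rw [hA0, hA1, Finset.sum_filter_add_sum_filter_not]
    have hcardA : (A.card : ℤ) = A0.card + A1.card := by
      rw [hA0, hA1]
      exact_mod_cast (Finset.card_filter_add_card_filter_not (s := A) (fun x => e χ₀ x = 1)).symm
    have hshift : ∀ χ ∈ Γ, fh e A (χ ^^^ χ₀) = fh e A0 χ - fh e A1 χ := by
      intro χ hχ
      rw [hsum]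
      have h0 : fh e A0 (χ ^^^ χ₀) = fh e A0 χ := by
        unfold fh
        refine Finset.sum_congr rfl fun x hx => ?_
        rw [hmul χ hχ χ₀ hχ₀.1, hA0' x hx, mul_one]
      have h1 : fh e A1 (χ ^^^ χ₀) = - fh e A1 χ := by
        unfold fh
        rw [← Finset.sum_neg_distrib]
        refine Finset.sum_congr rfl fun x hx => ?_
        rw [hmul χ hχ χ₀ hχ₀.1, hA1' x hx]
        ring
      rw [h0, h1]
      ring
    have hbij : ∑ χ ∈ Γ, |fh e A (χ ^^^ χ₀)| = ∑ χ ∈ Γ, |fh e A χ| := by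
      refine Finset.sum_nbij' (fun χ => χ ^^^ χ₀) (fun χ => χ ^^^ χ₀) ?_ ?_ ?_ ?_ ?_
      · intro χ hχ; exact hcl χ hχ χ₀ hχ₀.1
      · intro χ hχ; exact hcl χ hχ χ₀ hχ₀.1
      · intro χ _; simp
      · intro χ _; simp
      · intro χ _; rfl
    -- pointwise inequality
    have hpt : ∀ χ ∈ Γ, |fh e A0 χ| + |fh e A1 χ| + d ≤ |fh e A χ| + |fh e A (χ ^^^ χ₀)| := by
      intro χ hχ
      have h1 := hge χ hχ
      have h2 := hge _ (hcl χ hχ χ₀ hχ₀.1)
      rw [hshift χ hχ] at h2 ⊢
      rw [hsum] at h1 ⊢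
      generalize fh e A0 χ = x at *
      generalize fh e A1 χ = y at *
      rcases abs_cases x with hx | hx <;> rcases abs_cases y with hy | hy <;>
        rcases abs_cases (x + y) with hxy | hxy <;> rcases abs_cases (x - y) with hxy' | hxy' <;>
        omega
    -- new subgroup
    set Δ' := Δ ∪ Δ.image (fun a => a ^^^ χ₀) with hΔ'
    have hinj : Function.Injective (fun a : ℕ => a ^^^ χ₀) := by
      intro a b h
      have h' : a ^^^ χ₀ = b ^^^ χ₀ := h
      have := congrArg (fun t => t ^^^ χ₀) h'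
      simpa [Nat.xor_assoc] using this
    have hdisj : Disjoint Δ (Δ.image (fun a => a ^^^ χ₀)) := by
      rw [Finset.disjoint_left]
      intro a ha hb
      rw [Finset.mem_image] at hb
      obtain ⟨b, hb, hab⟩ := hb
      apply hχ₀.2
      have h1 : b ^^^ a = χ₀ := by
        rw [← hab, ← Nat.xor_assoc]
        simp
      rw [← h1]
      exact hΔcl b hb a ha
    have hcard' : Δ'.card = 2 * Δ.card := by
      rw [hΔ', Finset.card_union_of_disjoint hdisj, Finset.card_image_of_injective _ hinj]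
      ring
    have hsub' : Δ' ⊆ Γ := by
      intro a ha
      rw [hΔ', Finset.mem_union, Finset.mem_image] at ha
      rcases ha with ha | ⟨b, hb, rfl⟩
      · exact hΔ ha
      · exact hcl b (hΔ hb) χ₀ hχ₀.1
    have hcl' : ∀ a ∈ Δ', ∀ b ∈ Δ', a ^^^ b ∈ Δ' := by
      intro a ha b hb
      rw [hΔ', Finset.mem_union, Finset.mem_image] at ha hb ⊢
      rcases ha with ha | ⟨a', ha', rfl⟩ <;> rcases hb with hb | ⟨b', hb', rfl⟩
      · left; exact hΔcl a ha b hb
      · right; exact ⟨a ^^^ b', hΔcl a ha b' hb', by rw [Nat.xor_assoc]⟩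
      · right
        refine ⟨a' ^^^ b, hΔcl a' ha' b hb, ?_⟩
        rw [Nat.xor_assoc, Nat.xor_comm b χ₀, ← Nat.xor_assoc]
      · left
        have : a' ^^^ χ₀ ^^^ (b' ^^^ χ₀) = a' ^^^ b' := by
          rw [Nat.xor_comm b' χ₀, Nat.xor_assoc, ← Nat.xor_assoc χ₀ χ₀ b']
          simp
        rw [this]
        exact hΔcl a' ha' b' hb'
    have hne2 : Δ'.Nonempty := by
      obtain ⟨a, ha⟩ := hne
      exact ⟨a, by rw [hΔ']; exact Finset.mem_union_left _ ha⟩
    have hcardΓ : Γ.card = 2 ^ n * Δ'.card := by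
      rw [hcard', hcard]; ring
    have hconst : ∀ B : Finset X, B ⊆ A → (∃ c, ∀ x ∈ B, e χ₀ x = c) →
        ∀ δ ∈ Δ', ∃ c, ∀ x ∈ B, e δ x = c := by
      intro B hB ⟨c0, hc0⟩ δ hδ
      rw [hΔ', Finset.mem_union, Finset.mem_image] at hδ
      rcases hδ with hδ | ⟨b, hb, rfl⟩
      · obtain ⟨c, hc⟩ := hA δ hδ
        exact ⟨c, fun x hx => hc x (hB hx)⟩
      · obtain ⟨c, hc⟩ := hA b hb
        exact ⟨c * c0, fun x hx => by rw [hmul b (hΔ hb) χ₀ hχ₀.1, hc x (hB hx), hc0 x hx]⟩
    have ih0 := ih Δ' hsub' hne2 hcl' hcardΓ A0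
      (hconst A0 (Finset.filter_subset _ _) ⟨1, hA0'⟩)
    have ih1 := ih Δ' hsub' hne2 hcl' hcardΓ A1
      (hconst A1 (Finset.filter_subset _ _) ⟨-1, hA1'⟩)
    have hdval : d = |(A0.card : ℤ) - A1.card| := by
      rw [hd, hsum]
      have h0 : fh e A0 χ₀ = A0.card := by
        unfold fh
        rw [Finset.sum_congr rfl hA0', Finset.sum_const, nsmul_eq_mul, mul_one]
      have h1 : fh e A1 χ₀ = - A1.card := by
        unfold fh
        rw [Finset.sum_congr rfl hA1', Finset.sum_const, nsmul_eq_mul]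
        ring
      rw [h0, h1]
      rfl
    have hstep := w_step n A0.card A1.card
    rw [← hcardA, ← hdval] at hstep
    have htot := Finset.sum_le_sum hpt
    rw [Finset.sum_add_distrib, Finset.sum_add_distrib, Finset.sum_add_distrib, hbij,
      Finset.sum_const, nsmul_eq_mul] at htot
    have hΓc : (Γ.card : ℤ) = 2 ^ (n + 1) * Δ.card := by exact_mod_cast hcard
    have hc2 : (Δ'.card : ℤ) = 2 * Δ.card := by exact_mod_cast hcard'
    rw [hc2] at ih0 ih1
    rw [hΓc] at htot
    have hΔ0 : (0 : ℤ) < Δ.card := by exact_mod_cast hΔpos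
    have hfin := mul_le_mul_of_nonneg_left hstep hΔ0.le
    rw [pow_succ] at htot
    nlinarith

end main

/-! ### The Sylvester matrix on natural numbers -/

/-- the Sylvester matrix on natural-number indices -/
def s : ℕ → ℕ → ℕ → ℤ
  | 0, _, _ => 1
  | n + 1, k, i => (if 2 ^ n ≤ k ∧ 2 ^ n ≤ i then -1 else 1) * s n (k % 2 ^ n) (i % 2 ^ n)

theorem syl_eq (n : ℕ) (k i : Fin (2 ^ n)) : syl n k i = s n k i := by
  induction n with
  | zero => rfl
  | succ n ih =>
    simp only [syl, s]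
    rw [ih]

theorem s_sq (n k i : ℕ) : s n k i = 1 ∨ s n k i = -1 := by
  induction n generalizing k i with
  | zero => left; rfl
  | succ n ih =>
    simp only [s]
    rcases ih (k % 2 ^ n) (i % 2 ^ n) with h | h <;> rw [h] <;> split_ifs <;> simp

theorem le_iff_testBit (n i : ℕ) (hi : i < 2 ^ (n + 1)) : 2 ^ n ≤ i ↔ i.testBit n = true := by
  rw [Nat.testBit_eq_decide_div_mod_eq, decide_eq_true_eq]
  have h2 : i / 2 ^ n < 2 := by
    rw [Nat.div_lt_iff_lt_mul (Nat.two_pow_pos n)]
    rw [pow_succ] at hi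
    omega
  rw [Nat.mod_eq_of_lt h2]
  constructor
  · intro h
    have : 1 ≤ i / 2 ^ n := (Nat.one_le_div_iff (Nat.two_pow_pos n)).mpr h
    omega
  · intro h
    exact (Nat.one_le_div_iff (Nat.two_pow_pos n)).mp (by omega)

theorem s_mul (n : ℕ) : ∀ k i j : ℕ, i < 2 ^ n → j < 2 ^ n →
    s n k (i ^^^ j) = s n k i * s n k j := by
  induction n with
  | zero => intro k i j _ _; rfl
  | succ n ih =>
    intro k i j hi hj
    simp only [s]
    have hp := Nat.two_pow_pos n
    rw [Nat.xor_mod_two_pow, ih _ _ _ (Nat.mod_lt _ hp) (Nat.mod_lt _ hp)]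
    have hx : i ^^^ j < 2 ^ (n + 1) := Nat.xor_lt_two_pow hi hj
    have hx' := le_iff_testBit n _ hx
    have hi' := le_iff_testBit n _ hi
    have hj' := le_iff_testBit n _ hj
    rw [Nat.testBit_xor] at hx'
    by_cases hk : 2 ^ n ≤ k
    · simp only [hk, true_and, hx', hi', hj']
      cases i.testBit n <;> cases j.testBit n <;> simp
    · simp [hk]

/-- For every set `A` of rows, the `ℓ₁`-norm of the sum of the rows in `A` is at least
`w n |A|`. -/
theorem l1_lower (n : ℕ) (A : Finset (Fin (2 ^ n))) :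
    w n A.card ≤ ∑ i : Fin (2 ^ n), |∑ k ∈ A, syl n k i| := by
  have h := main (X := Fin (2 ^ n)) (fun χ x => s n x χ) (Finset.range (2 ^ n))
    (fun χ x => s_sq n x χ)
    (fun a ha b hb => Finset.mem_range.mpr
      (Nat.xor_lt_two_pow (Finset.mem_range.mp ha) (Finset.mem_range.mp hb)))
    (fun a ha b hb x => s_mul n x a b (Finset.mem_range.mp ha) (Finset.mem_range.mp hb))
    n {0} (by simp) (by simp) (by simp) (by simp) A ?_
  · simp only [Finset.card_singleton, Nat.cast_one, one_mul] at h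
    refine h.trans (le_of_eq ?_)
    rw [Finset.sum_range]
    refine Finset.sum_congr rfl fun i _ => ?_
    unfold fh
    simp only [syl_eq]
  · intro δ hδ
    rw [Finset.mem_singleton] at hδ
    subst hδ
    refine ⟨1, fun x _ => ?_⟩
    have h0 : ∀ (n k : ℕ), s n k 0 = 1 := by
      intro n
      induction n with
      | zero => intro k; rfl
      | succ n ih =>
        intro k
        have hp := Nat.two_pow_pos n
        simp only [s, Nat.zero_mod, ih]
        rw [if_neg (by omega)]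
        rfl
    exact h0 n x

/-! ### Evaluation at `m_n` -/

theorem m_spec (n : ℕ) : 3 * (m n : ℤ) = 2 ^ (n + 1) + (-1) ^ n := by
  have hdiv : ∀ n : ℕ, (3 : ℤ) ∣ 2 ^ (n + 1) + (-1) ^ n := by
    intro n
    induction n with
    | zero => norm_num
    | succ n ih =>
      obtain ⟨c, hc⟩ := ih
      refine ⟨c * 2 - (-1) ^ n, ?_⟩
      have : (2 : ℤ) ^ (n + 1 + 1) + (-1) ^ (n + 1) = (2 ^ (n + 1) + (-1) ^ n) * 2 - 3 * (-1) ^ n := by
        ring
      rw [this, hc]
      ring
  have hnonneg : (0 : ℤ) ≤ 2 ^ (n + 1) + (-1) ^ n := by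
    have h1 : (1 : ℤ) ≤ 2 ^ (n + 1) := one_le_pow₀ (by norm_num)
    rcases neg_one_pow_eq_or ℤ n with h | h <;> rw [h] <;> linarith
  unfold m
  rw [Int.toNat_of_nonneg (Int.ediv_nonneg hnonneg (by norm_num))]
  exact Int.mul_ediv_cancel' (hdiv n)

theorem m_le (n : ℕ) (hn : 1 ≤ n) : m n ≤ 2 ^ n := by
  have h := m_spec n
  have h1 : (2 : ℤ) ≤ 2 ^ n := by
    calc (2 : ℤ) = 2 ^ 1 := by norm_num
      _ ≤ 2 ^ n := pow_le_pow_right₀ (by norm_num) hn
  have : (m n : ℤ) ≤ 2 ^ n := by
    rw [pow_succ] at h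
    rcases neg_one_pow_eq_or ℤ n with h' | h' <;> rw [h'] at h <;> linarith
  exact_mod_cast this

theorem w_m (n : ℕ) : 9 * w n (m n) = (3 * n + 7) * 2 ^ n + 2 * (-1) ^ n ∧
    9 * w (n + 1) (m (n + 1)) = (3 * (n + 1) + 7) * 2 ^ (n + 1) + 2 * (-1) ^ (n + 1) := by
  induction n with
  | zero =>
    have h0 : (m 0 : ℤ) = 1 := by have := m_spec 0; norm_num at this; linarith
    have h1 : (m 1 : ℤ) = 1 := by have := m_spec 1; norm_num at this; linarith
    rw [h0]
    simp only [zero_add, h1]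
    constructor
    · simp [w]
    · simp [w]
  | succ n ih =>
    refine ⟨by exact_mod_cast ih.2, ?_⟩
    obtain ⟨ih1, ih2⟩ := ih
    have s0 := m_spec n
    have s1 := m_spec (n + 1)
    have s2 := m_spec (n + 1 + 1)
    have hp : (0 : ℤ) < 2 ^ n := by positivity
    have r1 : (2 : ℤ) ^ (n + 1) = 2 * 2 ^ n := by ring
    have r2 : (2 : ℤ) ^ (n + 1 + 1) = 4 * 2 ^ n := by ring
    have r3 : (2 : ℤ) ^ (n + 1 + 1 + 1) = 8 * 2 ^ n := by ring
    have q1 : (-1 : ℤ) ^ (n + 1) = - (-1) ^ n := by ring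
    have q2 : (-1 : ℤ) ^ (n + 1 + 1) = (-1) ^ n := by ring
    rw [r1] at s0
    rw [r2, q1] at s1
    rw [r3, q2] at s2
    rcases neg_one_pow_eq_or ℤ n with h | h
    · -- n even : m_{n+2} = 2 m_{n+1} + 1, m_{n+1} + 1 = 2 m_n
      rw [h] at s0 s1 s2
      have e1 : (m (n + 1 + 1) : ℤ) = 2 * m (n + 1) + 1 := by linarith
      have e2 : (m (n + 1) : ℤ) + 1 = 2 * m n := by linarith
      rw [e1, w_odd, e2, w_even]
      rw [q1, h, r1] at ih2
      rw [h] at ih1
      push_cast
      rw [q2, h, r2, r1]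
      linarith
    · rw [h] at s0 s1 s2
      have e1 : (m (n + 1 + 1) : ℤ) = 2 * (2 * m n) + 1 := by linarith
      have e2 : 2 * (m n : ℤ) + 1 = m (n + 1) := by linarith
      rw [e1, w_odd, e2, w_even]
      rw [q1, h, r1] at ih2
      rw [h] at ih1
      push_cast
      rw [q2, h, r2, r1]
      linarith

theorem rho_eq (n : ℕ) : rho n = (w n (m n) : ℝ) := by
  have h := (w_m n).1
  have h' : (9 : ℝ) * (w n (m n) : ℝ) = (3 * n + 7) * 2 ^ n + 2 * (-1) ^ n := by exact_mod_cast h
  unfold rho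
  linarith

/-- For every `n ≥ 1` and every permutation `σ` of the rows of the Sylvester matrix of order `2^n`,
the sum of the rows `σ(1), …, σ(m_n)` has `ℓ₁`-norm at least `ϱ_n`. -/
theorem result :
    (∀ n : ℕ, 3 * (m n : ℤ) = 2 ^ (n + 1) + (-1) ^ n) ∧
    ∀ n : ℕ, 1 ≤ n → ∀ σ : Equiv.Perm (Fin (2 ^ n)),
      rho n ≤ l1 (fun i => ∑ k ∈ Finset.univ.filter (fun k : Fin (2 ^ n) => k.val < m n),
        (syl n (σ k) i : ℝ)) := by
  refine ⟨m_spec, fun n hn σ => ?_⟩
  have hA : ((Finset.univ.filter (fun k : Fin (2 ^ n) => k.val < m n)).map σ.toEmbedding).card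
      = m n := by
    rw [Finset.card_map]
    have hmle := m_le n hn
    rw [Fin.card_filter_val_lt]
    exact min_eq_right hmle
  have h := l1_lower n ((Finset.univ.filter (fun k : Fin (2 ^ n) => k.val < m n)).map σ.toEmbedding)
  rw [hA] at h
  rw [rho_eq]
  unfold l1
  have h2 : ((w n (m n) : ℤ) : ℝ) ≤ ((∑ i : Fin (2 ^ n), |∑ k ∈ (Finset.univ.filter
      (fun k : Fin (2 ^ n) => k.val < m n)).map σ.toEmbedding, syl n k i| : ℤ) : ℝ) := by
    exact_mod_cast h
  refine h2.trans (le_of_eq ?_)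
  push_cast
  refine Finset.sum_congr rfl fun i _ => ?_
  rw [Finset.sum_map]
  rfl

end Pool.Agent.Results.MP_3a5363_co.SylvesterRows
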